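import Mathlib
import Pool.Agent.H42.BH.Face
import Pool.Agent.H53.DF.Bridge
import Pool.Agent.H8.DF.Final

set_option autoImplicit false

namespace Pool.Agent.Results.MP_8d0139_an.DimensionSimplex

open Matrix Filter Topology

/-- the disjoint union of the sets of positive elements of the matrix algebras `M_n(A)`,
an element being positive when it is of the form `x* x`. -/
def PosMat (A : Type) [CStarAlgebra A] : Type :=
  Σ n : ℕ, {a : Matrix (Fin n) (Fin n) A // ∃ x : Matrix (Fin n) (Fin n) A, a = xᴴ * x}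

variable {A : Type} [CStarAlgebra A]

/-- the block sum `a ⊕ b = diag(a, b)` of positive matrices. -/
def PosMat.dsum (a b : PosMat A) : PosMat A :=
  ⟨a.1 + b.1, Matrix.reindex finSumFinEquiv finSumFinEquiv (Matrix.fromBlocks a.2.1 0 0 b.2.1), by
    obtain ⟨x, hx⟩ := a.2.2
    obtain ⟨y, hy⟩ := b.2.2
    refine ⟨Matrix.reindex finSumFinEquiv finSumFinEquiv (Matrix.fromBlocks x 0 0 y), ?_⟩
    rw [Matrix.reindex_apply, Matrix.reindex_apply, Matrix.conjTranspose_submatrix,
      Matrix.submatrix_mul_equiv, Matrix.fromBlocks_conjTranspose, Matrix.fromBlocks_multiply, hx, hy]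
    simp⟩

/-- the unit of `A`, as a one by one matrix. -/
def PosMat.unit (A : Type) [CStarAlgebra A] : PosMat A := ⟨1, 1, ⟨1, by simp⟩⟩

/-- Cuntz subequivalence: `a` is a norm limit of elements `x_k b x_k*`, with `x_k` rectangular. -/
def PosMat.Sub (a b : PosMat A) : Prop :=
  ∃ x : ℕ → Matrix (Fin a.1) (Fin b.1) A, Tendsto (fun k => x k * b.2.1 * (x k)ᴴ) atTop (nhds a.2.1)

/-- the set of normalized dimension functions on `A`, in the space of all real functions on
positive matrices with the topology of pointwise convergence. -/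
def DF (A : Type) [CStarAlgebra A] : Set (PosMat A → ℝ) :=
  {d | (∀ a, 0 ≤ d a) ∧ (∀ a b, d (a.dsum b) = d a + d b) ∧ (∀ a b, a.Sub b → d a ≤ d b) ∧
    d (PosMat.unit A) = 1}

/-- the cone `{(t x, t) : t ≥ 0, x ∈ K}` over a set `K`. -/
def coneOver {E : Type} [AddCommGroup E] [Module ℝ E] (K : Set E) : Set (E × ℝ) :=
  {u | ∃ t : ℝ, 0 ≤ t ∧ ∃ x ∈ K, u = (t • x, t)}

/-- a Choquet simplex, by the lattice criterion: a compact convex set such that the cone over it is a
lattice in the order `u ≤ v ↔ v - u ∈ cone`. -/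
def IsChoquetSimplex {E : Type} [AddCommGroup E] [Module ℝ E] [TopologicalSpace E] (K : Set E) :
    Prop :=
  IsCompact K ∧ Convex ℝ K ∧ ∀ u ∈ coneOver K, ∀ v ∈ coneOver K,
    (∃ s ∈ coneOver K, s - u ∈ coneOver K ∧ s - v ∈ coneOver K ∧
      ∀ k ∈ coneOver K, k - u ∈ coneOver K → k - v ∈ coneOver K → k - s ∈ coneOver K) ∧
    (∃ i ∈ coneOver K, u - i ∈ coneOver K ∧ v - i ∈ coneOver K ∧
      ∀ k ∈ coneOver K, u - k ∈ coneOver K → v - k ∈ coneOver K → i - k ∈ coneOver K)

/-- unnormalized dimension functions on positive matrices -/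
structure Dm (d : PosMat A → ℝ) : Prop where
  nonneg : ∀ a, 0 ≤ d a
  add : ∀ a b : PosMat A, d (a.dsum b) = d a + d b
  mono : ∀ a b : PosMat A, a.Sub b → d a ≤ d b

theorem mem_DF {d : PosMat A → ℝ} : d ∈ DF A ↔ Dm d ∧ d (PosMat.unit A) = 1 := by
  constructor
  · rintro ⟨h1, h2, h3, h4⟩
    exact ⟨⟨h1, h2, h3⟩, h4⟩
  · rintro ⟨⟨h1, h2, h3⟩, h4⟩
    exact ⟨h1, h2, h3, h4⟩

/-- the identity matrix of size `n` -/
def PosMat.one (A : Type) [CStarAlgebra A] (n : ℕ) : PosMat A := ⟨n, 1, ⟨1, by simp⟩⟩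

theorem sub_one (a : PosMat A) : a.Sub (PosMat.one A a.1) := by
  obtain ⟨x, hx⟩ := a.2.2
  refine ⟨fun _ => xᴴ, ?_⟩
  refine (tendsto_const_nhds (x := a.2.1)).congr fun k => ?_
  change a.2.1 = xᴴ * (1 : Matrix (Fin a.1) (Fin a.1) A) * (xᴴ)ᴴ
  rw [Matrix.mul_one, Matrix.conjTranspose_conjTranspose, ← hx]

theorem one_dsum (n : ℕ) : (PosMat.one A n).dsum (PosMat.unit A) = PosMat.one A (n + 1) := by
  have h : Matrix.reindex finSumFinEquiv finSumFinEquiv
      (Matrix.fromBlocks (1 : Matrix (Fin n) (Fin n) A) 0 0 (1 : Matrix (Fin 1) (Fin 1) A)) = 1 := by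
    rw [Matrix.fromBlocks_one, Matrix.reindex_apply, Matrix.submatrix_one_equiv]
  exact congrArg (fun z => (⟨n + 1, z⟩ : PosMat A)) (Subtype.ext h)

theorem Dm.one_zero {d : PosMat A → ℝ} (h : Dm d) : d (PosMat.one A 0) ≤ 0 := by
  have h1 : (PosMat.one A 0).dsum (PosMat.one A 0) = PosMat.one A 0 := by
    have h : Matrix.reindex finSumFinEquiv finSumFinEquiv
      (Matrix.fromBlocks (1 : Matrix (Fin 0) (Fin 0) A) 0 0 (1 : Matrix (Fin 0) (Fin 0) A)) = 1 := by
      rw [Matrix.fromBlocks_one, Matrix.reindex_apply, Matrix.submatrix_one_equiv]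
    exact congrArg (fun z => (⟨0, z⟩ : PosMat A)) (Subtype.ext h)
  have h2 := h.add (PosMat.one A 0) (PosMat.one A 0)
  rw [h1] at h2
  linarith

theorem Dm.one_le {d : PosMat A → ℝ} (h : Dm d) (n : ℕ) :
    d (PosMat.one A n) ≤ n * d (PosMat.unit A) := by
  induction n with
  | zero => simpa using h.one_zero
  | succ n ih =>
    rw [← one_dsum, h.add]
    push_cast
    linarith

theorem Dm.le {d : PosMat A → ℝ} (h : Dm d) (a : PosMat A) : d a ≤ a.1 * d (PosMat.unit A) :=
  (h.mono _ _ (sub_one a)).trans (h.one_le a.1)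

theorem Dm.smul {d : PosMat A → ℝ} (h : Dm d) {t : ℝ} (ht : 0 ≤ t) : Dm (t • d) where
  nonneg a := mul_nonneg ht (h.nonneg a)
  add a b := by
    change t * d _ = t * d a + t * d b
    rw [h.add]; ring
  mono a b hab := mul_le_mul_of_nonneg_left (h.mono a b hab) ht

theorem Dm.add' {d e : PosMat A → ℝ} (h : Dm d) (k : Dm e) : Dm (d + e) where
  nonneg a := add_nonneg (h.nonneg a) (k.nonneg a)
  add a b := by
    change d _ + e _ = (d a + e a) + (d b + e b)
    rw [h.add, k.add]; ring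
  mono a b hab := add_le_add (h.mono a b hab) (k.mono a b hab)

theorem convex_DF : Convex ℝ (DF A) := by
  intro x hx y hy s t hs ht hst
  rw [mem_DF] at *
  refine ⟨(hx.1.smul hs).add' (hy.1.smul ht), ?_⟩
  change s * x _ + t * y _ = 1
  rw [hx.2, hy.2]; linarith

theorem isClosed_DF : IsClosed (DF A) := by
  have e : DF A = (⋂ a, {d : PosMat A → ℝ | 0 ≤ d a}) ∩
      ((⋂ a, ⋂ b, {d : PosMat A → ℝ | d (PosMat.dsum a b) = d a + d b}) ∩
      ((⋂ a, ⋂ b, ⋂ (_ : PosMat.Sub a b), {d : PosMat A → ℝ | d a ≤ d b}) ∩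
        {d : PosMat A → ℝ | d (PosMat.unit A) = 1})) := by
    ext d
    simp only [DF, Set.mem_ofPred_eq, Set.mem_inter_iff, Set.mem_iInter]
  rw [e]
  refine IsClosed.inter (isClosed_iInter fun a => isClosed_le continuous_const (continuous_apply a))
    (IsClosed.inter (isClosed_iInter fun a => isClosed_iInter fun b =>
      isClosed_eq (continuous_apply _) ((continuous_apply a).add (continuous_apply b)))
    (IsClosed.inter (isClosed_iInter fun a => isClosed_iInter fun b => isClosed_iInter fun _ =>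
      isClosed_le (continuous_apply a) (continuous_apply b))
      (isClosed_eq (continuous_apply _) continuous_const)))

theorem isCompact_DF : IsCompact (DF A) := by
  have h : IsCompact (Set.pi Set.univ (fun a : PosMat A => Set.Icc (0 : ℝ) a.1)) :=
    isCompact_univ_pi fun a => isCompact_Icc
  refine h.of_isClosed_subset isClosed_DF ?_
  intro d hd a _
  rw [mem_DF] at hd
  have := hd.1.le a
  rw [hd.2, mul_one] at this
  exact ⟨hd.1.nonneg a, this⟩

/-- membership in the cone over `DF A` -/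
theorem mem_cone_of {d : PosMat A → ℝ} (h : Dm d) (hne : (DF A).Nonempty) :
    (d, d (PosMat.unit A)) ∈ coneOver (DF A) := by
  set t := d (PosMat.unit A) with ht
  have ht0 : 0 ≤ t := h.nonneg _
  rcases eq_or_lt_of_le ht0 with h0 | hpos
  · obtain ⟨x, hx⟩ := hne
    refine ⟨0, le_rfl, x, hx, ?_⟩
    have hd : d = 0 := by
      funext a
      have h1 := h.le a
      rw [← ht, ← h0, mul_zero] at h1
      exact le_antisymm h1 (h.nonneg a)
    rw [zero_smul, ← h0, hd]
  · refine ⟨t, ht0, t⁻¹ • d, ?_, ?_⟩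
    · rw [mem_DF]
      refine ⟨h.smul (inv_nonneg.2 ht0), ?_⟩
      change t⁻¹ * d _ = 1
      rw [← ht]
      exact inv_mul_cancel₀ hpos.ne'
    · rw [smul_smul, mul_inv_cancel₀ hpos.ne', one_smul]

theorem of_mem_cone {u : (PosMat A → ℝ) × ℝ} (h : u ∈ coneOver (DF A)) :
    Dm u.1 ∧ u.2 = u.1 (PosMat.unit A) := by
  obtain ⟨t, ht, x, hx, rfl⟩ := h
  rw [mem_DF] at hx
  refine ⟨hx.1.smul ht, ?_⟩
  change t = t * x _
  rw [hx.2, mul_one]

theorem mem_cone_iff (hne : (DF A).Nonempty) {u : (PosMat A → ℝ) × ℝ} :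
    u ∈ coneOver (DF A) ↔ Dm u.1 ∧ u.2 = u.1 (PosMat.unit A) := by
  constructor
  · exact of_mem_cone
  · rintro ⟨h1, h2⟩
    have := mem_cone_of h1 hne
    rw [← h2] at this
    exact this

/-- extension of a function on positive matrices to all matrices -/
noncomputable def ext (d : PosMat A → ℝ) : (n : ℕ) → Matrix (Fin n) (Fin n) A → ℝ :=
  fun n a => @dite ℝ (∃ x : Matrix (Fin n) (Fin n) A, a = xᴴ * x) (Classical.dec _)
    (fun h => d ⟨n, a, h⟩) (fun _ => 0)

theorem ext_apply (d : PosMat A → ℝ) (a : PosMat A) : ext d a.1 a.2.1 = d a := by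
  obtain ⟨n, a, h⟩ := a
  exact dif_pos h

/-- restriction of a function on all square matrices to positive ones -/
def rest (f : (n : ℕ) → Matrix (Fin n) (Fin n) A → ℝ) : PosMat A → ℝ := fun a => f a.1 a.2.1

theorem isDim_iff (f : (n : ℕ) → Matrix (Fin n) (Fin n) A → ℝ) :
    Pool.Agent.H53.DF.IsDim f ↔ Dm (rest f) := by
  constructor
  · intro h
    exact ⟨fun a => h.nonneg _ _ a.2.2, fun a b => h.add _ _ _ _ a.2.2 b.2.2,
      fun a b hab => h.mono _ _ _ _ a.2.2 b.2.2 hab⟩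
  · intro h
    exact ⟨fun n a ha => h.nonneg ⟨n, a, ha⟩, fun n m a b ha hb => h.add ⟨n, a, ha⟩ ⟨m, b, hb⟩,
      fun n m a b ha hb hab => h.mono ⟨n, a, ha⟩ ⟨m, b, hb⟩ hab⟩

theorem rest_ext (d : PosMat A → ℝ) : rest (ext d) = d := funext fun a => ext_apply d a

/-- For every unital C*-algebra `A` the set of normalized dimension functions is a Choquet simplex. -/
theorem result (A : Type) [CStarAlgebra A] : IsChoquetSimplex (DF A) := by
  refine ⟨isCompact_DF, convex_DF, ?_⟩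
  intro u hu v hv
  have hne : (DF A).Nonempty := by
    obtain ⟨_, _, x, hx, _⟩ := hu
    exact ⟨x, hx⟩
  have key := Pool.Agent.H8.DF.assemble
    (fun _ _ hf hg => Pool.Agent.H42.BH.lattice hf hg)
    (fun d hd => Pool.Agent.H53.DF.exists_rkFun d hd)
    (ext u.1) (ext v.1) (by rw [isDim_iff, rest_ext]; exact (of_mem_cone hu).1)
    (by rw [isDim_iff, rest_ext]; exact (of_mem_cone hv).1)
  simp only [isDim_iff] at key
  have hu2 := (of_mem_cone hu).2
  have hv2 := (of_mem_cone hv).2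
  obtain ⟨⟨s, hs, hsu, hsv, hsk⟩, ⟨i, hi, hiu, hiv, hik⟩⟩ := key
  have r1 : ∀ f g : (n : ℕ) → Matrix (Fin n) (Fin n) A → ℝ, rest (f - g) = rest f - rest g :=
    fun _ _ => rfl
  rw [r1, rest_ext] at hsu hsv hiu hiv
  refine ⟨⟨(rest s, rest s (PosMat.unit A)), ?_, ?_, ?_, ?_⟩,
    ⟨(rest i, rest i (PosMat.unit A)), ?_, ?_, ?_, ?_⟩⟩
  · exact (mem_cone_iff hne).2 ⟨hs, rfl⟩
  · refine (mem_cone_iff hne).2 ⟨hsu, ?_⟩
    change _ - u.2 = _ - u.1 _
    rw [hu2]
  · refine (mem_cone_iff hne).2 ⟨hsv, ?_⟩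
    change _ - v.2 = _ - v.1 _
    rw [hv2]
  · intro k hk hku hkv
    have h1 := (of_mem_cone hku).1
    have h2 := (of_mem_cone hkv).1
    have h3 := hsk (ext k.1) (by rw [rest_ext]; exact (of_mem_cone hk).1)
      (by rw [r1, rest_ext, rest_ext]; exact h1) (by rw [r1, rest_ext, rest_ext]; exact h2)
    rw [r1, rest_ext] at h3
    refine (mem_cone_iff hne).2 ⟨h3, ?_⟩
    change k.2 - _ = k.1 _ - _
    rw [(of_mem_cone hk).2]
  · exact (mem_cone_iff hne).2 ⟨hi, rfl⟩
  · refine (mem_cone_iff hne).2 ⟨hiu, ?_⟩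
    change u.2 - _ = u.1 _ - _
    rw [hu2]
  · refine (mem_cone_iff hne).2 ⟨hiv, ?_⟩
    change v.2 - _ = v.1 _ - _
    rw [hv2]
  · intro k hk hku hkv
    have h1 := (of_mem_cone hku).1
    have h2 := (of_mem_cone hkv).1
    have h3 := hik (ext k.1) (by rw [rest_ext]; exact (of_mem_cone hk).1)
      (by rw [r1, rest_ext, rest_ext]; exact h1) (by rw [r1, rest_ext, rest_ext]; exact h2)
    rw [r1, rest_ext] at h3
    refine (mem_cone_iff hne).2 ⟨h3, ?_⟩
    change _ - k.2 = _ - k.1 _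
    rw [(of_mem_cone hk).2]

end Pool.Agent.Results.MP_8d0139_an.DimensionSimplex
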